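import Pool.Agent.Run7.h836.Frank.Poly

set_option autoImplicit false

/-! Frank's conjecture on complementary vertices of integer 2-polymatroids holds whenever
`f(A) ≤ |A| + 2` for every set `A` with at most `n - 3` elements. -/

namespace Pool.Agent.Results.MP_901b45_co.ExcessAtMostTwo

theorem result :
    ∀ (n : ℕ) (f : Finset (Fin n) → ℤ),
      f ∅ = 0 →
      Monotone f →
      (∀ A B : Finset (Fin n), f (A ∪ B) + f (A ∩ B) ≤ f A + f B) →
      (∀ e : Fin n, f {e} ≤ 2) →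
      (∀ A : Finset (Fin n), (A.card : ℤ) ≤ f A) →
      (∀ A : Finset (Fin n), A.card + 3 ≤ n → f A ≤ A.card + 2) →
      ∃ v ∈ Set.extremePoints ℝ
          {x : Fin n → ℝ | (∀ i, 0 ≤ x i) ∧
            ∀ A : Finset (Fin n), ∑ i ∈ A, x i ≤ (f A : ℝ)},
        (∀ i, 0 ≤ 2 - v i) ∧
          ∀ A : Finset (Fin n), ∑ i ∈ A, (2 - v i) ≤ (f A : ℝ) := by
  intro n f h0 hm hs h2 h1 hex
  exact Pool.Agent.Run7.h836.Frank.main f h0 hm hs h2 h1 hex

end Pool.Agent.Results.MP_901b45_co.ExcessAtMostTwo
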